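import Mathlib
import Pool.Agent.Lib.MP_195885_an.Assembly
import Pool.Agent.Lib.MP_195885_an.Bal
import Pool.Agent.Lib.MP_195885_an.LB
import Pool.Agent.Lib.MP_195885_an.UA
import Pool.Agent.Lib.MP_195885_an.UD
import Pool.Agent.Lib.MP_195885_an.Top
import Pool.Agent.Lib.MP_195885_an.Flow
import Pool.Agent.Lib.MP_195885_an.MP
import Pool.Agent.Lib.MP_195885_an.Count
import Pool.Agent.Lib.MP_195885_an.Corr
import Pool.Agent.Lib.MP_195885_an.Erg
import Pool.Agent.Lib.MP_195885_an.Persist
import Pool.Agent.Lib.MP_195885_an.Chain
import Pool.Agent.Lib.MP_195885_an.Minus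
import Pool.Agent.Lib.MP_195885_an.Single
import Pool.Agent.Lib.MP_195885_an.Half

set_option autoImplicit false

/-!
# Persistent uniform DC2 chaos does not imply DC1½ chaos

There is a topological dynamical system `(X, T)` on a compact metric space with an ergodic
invariant Borel probability measure `μ` such that uniform DC2 (hence DC2) is persistent under
removing `μ`-null sets, although `X` has no DC1½-scrambled pair at all (in particular no
uncountable DC1½-scrambled set).  This answers both forms of the question in the negative.

Outline.  Let `q n = 4 M n + 1`, `M n = 2 ^ n L n`, `L n = √n + 1`, and let `Z` be the odometer with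
digits `a_n < q n`, blocks of length `h n = q 0 ⋯ q (n-1)`.  The current `n`-block carries a content
`V_n` in the `F_2`-vector space `F_2 × ∏_{k<n} F_2 ^ k` (a `t`-component and components `w_k`), and
the content of an `n`-block inside an `(n+1)`-block of content `(u, w)`, `w ∈ F_2 ^ n`, is, according
to its digit: `u` (plain digits, among them all even ones); `u` plus `w`, truncated, at the component
`κ n < n` (the `2 ^ n` special digits `2 β + 1`, `β < 2 ^ n`); `u + ⟨θ(β), w⟩` at the component `t` (the
hit digits `2 β + 1`, `M n ≤ β < 2 M n`, with all functionals `θ(β)` equally often).  `X` consists of all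
pairs (point of the odometer, compatible contents at all times `≥ 0`), and `T` is the shift.

* The differences of two points over one point of the odometer obey the same linear rules.  A full
  `n`-block with nonzero content has at least `h n / 12` times with `t ≠ 0`, because hits are balanced.
  If the orbits are together most of the time along a sequence of initial segments, then the
  difference has exactly one component at every high level, and this component changes infinitely
  often through special digits.  Since even digits of such blocks have zero content and come first, the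
  orbits are far apart during at most half of the time of every long initial segment: no DC1½ pair.
* For almost every point `z` of the odometer there are levels `ℓ_1 < ℓ_2 < ⋯` with `κ (ℓ (i+1)) = ℓ i`
  and special digits `z (ℓ i)`; every `b ∈ F_2 ^ ℕ` gives a fibre element with components
  `b` truncated at the levels `ℓ i`, and two points which differ by such an element are DC2-scrambled
  with uniform constants.  The invariant measure is a product of Haar measures on the odometer and
  on the fibre group, so by Fubini uncountably many of these points avoid a given null set.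
* Ergodicity: second moments of the characters of the block contents, averaged over a block.
-/

open MeasureTheory Filter Topology Set

namespace Pool.Agent.Results.MP_195885_an.PersistentDC2NotDC15

/-- Upper density `limsup |A ∩ {1, …, n}| / n` of a set of natural numbers. -/
noncomputable def upperDensity (A : Set ℕ) : ℝ :=
  limsup (fun n : ℕ => ((A ∩ Set.Icc 1 n).ncard : ℝ) / (n : ℝ)) atTop

section chaos
variable {X : Type*} [MetricSpace X] (T : X → X)

/-- `D_s(x,y)`: the times at which the orbits of `x`, `y` are at distance at least `s`. -/
def farSet (s : ℝ) (x y : X) : Set ℕ := {n | s ≤ dist (T^[n] x) (T^[n] y)}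

/-- There is a set `N` of upper density one along which the distances of the orbits of `x`, `y`
tend to zero. -/
def UpperAsymptotic (x y : X) : Prop :=
  ∃ N : Set ℕ, upperDensity N = 1 ∧
    Tendsto (fun n : ℕ => dist (T^[n] x) (T^[n] y)) (atTop ⊓ 𝓟 N) (𝓝 0)

/-- DC2-scrambled pairs. -/
def DC2Pair (x y : X) : Prop :=
  UpperAsymptotic T x y ∧ ∃ s : ℝ, 0 < s ∧ 0 < upperDensity (farSet T s x y)

/-- DC1½-scrambled pairs. -/
def DC1halfPair (x y : X) : Prop :=
  UpperAsymptotic T x y ∧
    ∀ η : ℝ, η < 1 → ∃ s : ℝ, 0 < s ∧ η ≤ upperDensity (farSet T s x y)

/-- DC2-scrambled sets. -/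
def DC2Scrambled (E : Set X) : Prop := ∀ x ∈ E, ∀ y ∈ E, x ≠ y → DC2Pair T x y

/-- Uniformly DC2-scrambled sets. -/
def UniformlyDC2Scrambled (E : Set X) : Prop :=
  DC2Scrambled T E ∧ ∃ s : ℝ, 0 < s ∧ ∃ η : ℝ, 0 < η ∧
    ∀ x ∈ E, ∀ y ∈ E, x ≠ y → η ≤ upperDensity (farSet T s x y)

/-- DC1½-scrambled sets. -/
def DC1halfScrambled (E : Set X) : Prop := ∀ x ∈ E, ∀ y ∈ E, x ≠ y → DC1halfPair T x y

/-- DC1½ chaos: an uncountable DC1½-scrambled set. -/
def DC1halfChaotic : Prop := ∃ E : Set X, ¬ E.Countable ∧ DC1halfScrambled T E

/-- Uniform DC2 is persistent under removing `μ`-null sets. -/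
def PersistentUniformDC2 [MeasurableSpace X] (μ : Measure X) : Prop :=
  ∀ A : Set X, μ A = 0 → ∃ E : Set X, E ⊆ Aᶜ ∧ ¬ E.Countable ∧ UniformlyDC2Scrambled T E

/-- DC2 is persistent under removing `μ`-null sets. -/
def PersistentDC2 [MeasurableSpace X] (μ : Measure X) : Prop :=
  ∀ A : Set X, μ A = 0 → ∃ E : Set X, E ⊆ Aᶜ ∧ ¬ E.Countable ∧ DC2Scrambled T E

end chaos

/-- There are a compact metric space `X`, a continuous map `T : X → X` and an ergodic
`T`-invariant Borel probability measure `μ` such that uniform DC2 and DC2 are persistent under
removing `μ`-null sets, but `X` contains no DC1½-scrambled pair; in particular `(X, T)` is not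
DC1½ chaotic. -/
theorem result :
    ∃ (X : Type) (_ : MetricSpace X) (_ : CompactSpace X) (_ : MeasurableSpace X)
      (_ : BorelSpace X) (T : X → X) (μ : Measure X),
      Continuous T ∧ IsProbabilityMeasure μ ∧ Ergodic T μ ∧
      PersistentUniformDC2 T μ ∧ PersistentDC2 T μ ∧
      (∀ x y : X, ¬ DC1halfPair T x y) ∧ ¬ DC1halfChaotic T := by
  have hLB : MP195885.SpecLB := MP195885.specLB MP195885.specBal
  have hUD : MP195885.SpecUD := MP195885.specUD
  have hUA : MP195885.SpecUA := MP195885.specUA hUD
  have hN : MP195885.SpecNoDC := MP195885.specNoDC (MP195885.specSingle hLB)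
    (MP195885.specMinus hLB) (MP195885.specHalf hLB)
  have hCh : MP195885.SpecChain := MP195885.specChain MP195885.specBal hLB
  have hF : MP195885.SpecFlow := MP195885.specFlow
  have hT : MP195885.SpecTop := MP195885.specTop
  have hMP : MP195885.SpecMP := MP195885.specMP
  have hCo : MP195885.SpecCorr := MP195885.specCorr hF hMP MP195885.specCount
  have hE : MP195885.SpecErg := MP195885.specErg hCo hF
  have hP : MP195885.SpecPersist := MP195885.specPersist MP195885.specCount
  have hPN : MP195885.SpecPairNo := MP195885.specPairNo hN hT hUA hUD
  have hPD : MP195885.SpecPairDC2 :=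
    MP195885.specPairDC2 hCh MP195885.specHb hF hT hUA hUD
  exact MP195885.specFinal hF hT hMP hE hP hPD hUD hPN

end Pool.Agent.Results.MP_195885_an.PersistentDC2NotDC15
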